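import Pool.Agent.V8H41.AS.Time

/-!
# Arc-disjoint antistrong and strong spanning subdigraphs: the problem is NP-complete

Deciding whether a digraph has two arc-disjoint spanning subdigraphs, the first antistrong and the
second strongly connected, is NP-complete; so a polynomial-time algorithm exists if and only if
P = NP.
-/

namespace Pool.Agent.Results.MP_c99d13_lc.AntistrongStrongNPComplete

open Pool.Agent.NPC Pool.Agent.H673R2 Pool.Agent.V8H41.AS

theorem result :
    NPHardOn IsDigraph HasPair ∧
    InNPP (fun G : List (List ℕ) => IsDigraph G ∧ HasPair G) ∧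
    ((∃ f : List Bool → List Bool, PolyTime f ∧
      ∀ G : List (List ℕ), IsDigraph G → (f (bits G) = [true] ↔ HasPair G)) ↔
      ∀ L : Set (List Bool), InNP L → InP L) :=
  ⟨Pool.Agent.NPC.V8H41AS.hard, Pool.Agent.NPC.V8H41AS.inNPP_pair,
    Pool.Agent.NPC.V8H41AS.decide_iff⟩

end Pool.Agent.Results.MP_c99d13_lc.AntistrongStrongNPComplete
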